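import Pool.Agent.Work.MP_97b8d2_co.Defs

set_option autoImplicit false

namespace Pool.Agent.Work.MP_97b8d2_co

open Metric

/-- The oriented area form attached to the line through `a` and `b`. -/
noncomputable def side (a b x : EuclideanSpace ℝ (Fin 2)) : ℝ :=
  (b 0 - a 0) * (x 1 - a 1) - (b 1 - a 1) * (x 0 - a 0)

lemma mem_sphere_two {x : EuclideanSpace ℝ (Fin 2)}
    (hx : x ∈ sphere (0 : EuclideanSpace ℝ (Fin 2)) 1) : x 0 ^ 2 + x 1 ^ 2 = 1 := by
  rw [mem_sphere_zero_iff_norm] at hx
  have := EuclideanSpace.norm_sq_eq x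
  rw [hx, Fin.sum_univ_two] at this
  simp only [Real.norm_eq_abs, sq_abs] at this
  linarith

/-- Two chords of the unit circle intersect unless the endpoints of one lie strictly on one side
of the other. -/
theorem chord_inter_iff {a b a' b' : EuclideanSpace ℝ (Fin 2)}
    (ha : a ∈ sphere (0 : EuclideanSpace ℝ (Fin 2)) 1)
    (hb : b ∈ sphere (0 : EuclideanSpace ℝ (Fin 2)) 1) (hab : a ≠ b)
    (ha' : a' ∈ sphere (0 : EuclideanSpace ℝ (Fin 2)) 1)
    (hb' : b' ∈ sphere (0 : EuclideanSpace ℝ (Fin 2)) 1) :
    (segment ℝ a b ∩ segment ℝ a' b').Nonempty ↔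
      ¬ (0 < side a b a' ∧ 0 < side a b b') ∧ ¬ (side a b a' < 0 ∧ side a b b' < 0) := by
  have hA := mem_sphere_two ha
  have hB := mem_sphere_two hb
  have hA' := mem_sphere_two ha'
  have hB' := mem_sphere_two hb'
  constructor
  · rintro ⟨z, ⟨s, t, hs, ht, hst, rfl⟩, ⟨s', t', hs', ht', hst', hz⟩⟩
    have h0 : s' * a' 0 + t' * b' 0 = s * a 0 + t * b 0 := by
      have := congrArg (fun x : EuclideanSpace ℝ (Fin 2) => x 0) hz
      simpa using this
    have h1 : s' * a' 1 + t' * b' 1 = s * a 1 + t * b 1 := by
      have := congrArg (fun x : EuclideanSpace ℝ (Fin 2) => x 1) hz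
      simpa using this
    have hlin : s' * side a b a' + t' * side a b b' = 0 := by
      simp only [side]
      have e1 : s' = 1 - t' := by linarith
      have e2 : s = 1 - t := by linarith
      subst e1
      subst e2
      linear_combination (b 0 - a 0) * h1 - (b 1 - a 1) * h0
    constructor
    · rintro ⟨p1, p2⟩
      rcases hs'.eq_or_lt with h | h
      · have : t' = 1 := by linarith
        rw [← h, this] at hlin
        linarith
      · have := mul_pos h p1
        have := mul_nonneg ht' p2.le
        linarith
    · rintro ⟨p1, p2⟩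
      rcases hs'.eq_or_lt with h | h
      · have : t' = 1 := by linarith
        rw [← h, this] at hlin
        linarith
      · have := mul_neg_of_pos_of_neg h p1
        have := mul_nonpos_of_nonneg_of_nonpos ht' p2.le
        linarith
  · rintro ⟨h1, h2⟩
    -- a convex combination of the values vanishes
    obtain ⟨s', t', hs', ht', hst', hlin⟩ : ∃ s' t' : ℝ, 0 ≤ s' ∧ 0 ≤ t' ∧ s' + t' = 1 ∧
        s' * side a b a' + t' * side a b b' = 0 := by
      rcases lt_trichotomy (side a b a') 0 with ha1 | ha1 | ha1
      · have hb1 : 0 ≤ side a b b' := by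
          by_contra h
          exact h2 ⟨ha1, not_le.mp h⟩
        have hpos : 0 < side a b b' - side a b a' := by linarith
        refine ⟨side a b b' / (side a b b' - side a b a'),
          -side a b a' / (side a b b' - side a b a'), by positivity,
          div_nonneg (by linarith) hpos.le, ?_, ?_⟩
        · rw [← add_div]; exact div_self hpos.ne'
        · field_simp; ring
      · exact ⟨1, 0, zero_le_one, le_rfl, by norm_num, by rw [ha1]; ring⟩
      · have hb1 : side a b b' ≤ 0 := by
          by_contra h
          exact h1 ⟨ha1, not_le.mp h⟩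
        have hpos : 0 < side a b a' - side a b b' := by linarith
        refine ⟨-side a b b' / (side a b a' - side a b b'),
          side a b a' / (side a b a' - side a b b'), div_nonneg (by linarith) hpos.le,
          by positivity, ?_, ?_⟩
        · rw [← add_div, neg_add_eq_sub]; exact div_self hpos.ne'
        · field_simp; ring
    refine ⟨s' • a' + t' • b', ?_, ⟨s', t', hs', ht', hst', rfl⟩⟩
    set z : EuclideanSpace ℝ (Fin 2) := s' • a' + t' • b' with hz
    have hz0 : z 0 = s' * a' 0 + t' * b' 0 := by simp [hz]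
    have hz1 : z 1 = s' * a' 1 + t' * b' 1 := by simp [hz]
    have hside : side a b z = 0 := by
      rw [← hlin]
      simp only [side, hz0, hz1]
      have e1 : s' = 1 - t' := by linarith
      subst e1
      ring
    -- `z` is in the disk
    have hdisk : z 0 ^ 2 + z 1 ^ 2 ≤ 1 := by
      rw [hz0, hz1]
      have e1 : s' = 1 - t' := by linarith
      subst e1
      nlinarith [mul_nonneg hs' ht', sq_nonneg (a' 0 - b' 0), sq_nonneg (a' 1 - b' 1),
        mul_nonneg (mul_nonneg hs' ht') (sq_nonneg (a' 0 - b' 0)),
        mul_nonneg (mul_nonneg hs' ht') (sq_nonneg (a' 1 - b' 1))]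
    set L : ℝ := (b 0 - a 0) ^ 2 + (b 1 - a 1) ^ 2 with hL
    have hLpos : 0 < L := by
      by_contra h
      have h3 : L = 0 := le_antisymm (not_lt.mp h) (by positivity)
      apply hab
      have h4 : b 0 - a 0 = 0 := by
        have : (b 0 - a 0) ^ 2 = 0 := by nlinarith [sq_nonneg (b 0 - a 0), sq_nonneg (b 1 - a 1)]
        exact pow_eq_zero_iff (two_ne_zero) |>.mp this
      have h5 : b 1 - a 1 = 0 := by
        have : (b 1 - a 1) ^ 2 = 0 := by nlinarith [sq_nonneg (b 0 - a 0), sq_nonneg (b 1 - a 1)]
        exact pow_eq_zero_iff (two_ne_zero) |>.mp this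
      ext i
      fin_cases i
      · simp only [Fin.zero_eta]
        linarith
      · simp only [Fin.mk_one]
        linarith
    set t : ℝ := ((b 0 - a 0) * (z 0 - a 0) + (b 1 - a 1) * (z 1 - a 1)) / L with ht
    have htL : t * L = (b 0 - a 0) * (z 0 - a 0) + (b 1 - a 1) * (z 1 - a 1) := by
      rw [ht]; field_simp
    simp only [side] at hside
    have e0 : z 0 - a 0 = t * (b 0 - a 0) := by
      have : L * (z 0 - a 0) = L * (t * (b 0 - a 0)) := by
        calc L * (z 0 - a 0) = (b 0 - a 0) * (t * L) := by
              rw [htL, hL]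
              linear_combination (-(b 1 - a 1)) * hside
          _ = L * (t * (b 0 - a 0)) := by ring
      exact mul_left_cancel₀ hLpos.ne' this
    have e1 : z 1 - a 1 = t * (b 1 - a 1) := by
      have : L * (z 1 - a 1) = L * (t * (b 1 - a 1)) := by
        calc L * (z 1 - a 1) = (b 1 - a 1) * (t * L) := by
              rw [htL, hL]
              linear_combination (b 0 - a 0) * hside
          _ = L * (t * (b 1 - a 1)) := by ring
      exact mul_left_cancel₀ hLpos.ne' this
    have hkey : 0 ≤ t * (1 - t) := by
      have e2 : z 0 = a 0 + t * (b 0 - a 0) := by linarith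
      have e3 : z 1 = a 1 + t * (b 1 - a 1) := by linarith
      rw [e2, e3] at hdisk
      have h6 : (a 0 + t * (b 0 - a 0)) ^ 2 + (a 1 + t * (b 1 - a 1)) ^ 2 =
          1 - t * (1 - t) * L := by
        rw [hL]
        linear_combination (1 - t) * hA + t * hB
      rw [h6] at hdisk
      have h7 : 0 ≤ t * (1 - t) * L := by linarith
      exact nonneg_of_mul_nonneg_left h7 hLpos
    have ht0 : 0 ≤ t := by
      by_contra hneg
      have h8 : 0 < 1 - t := by linarith
      have h9 := mul_neg_of_neg_of_pos (not_le.mp hneg) h8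
      linarith
    have ht1 : 0 ≤ 1 - t := by
      by_contra hneg
      have h8 : 0 < t := by linarith
      have h9 := mul_neg_of_pos_of_neg h8 (not_le.mp hneg)
      linarith
    refine ⟨1 - t, t, ht1, ht0, by ring, ?_⟩
    ext i
    fin_cases i
    · simp only [Fin.zero_eta, PiLp.add_apply, PiLp.smul_apply, smul_eq_mul]
      linarith
    · simp only [Fin.mk_one, PiLp.add_apply, PiLp.smul_apply, smul_eq_mul]
      linarith

end Pool.Agent.Work.MP_97b8d2_co
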