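import Mathlib

set_option autoImplicit false

namespace Pool.Agent.Work.MP_97b8d2_co

open Metric

/-- The graph obtained from `G` by contracting the edge `u v` (the vertex `v` is identified with
`u`; loops and parallel edges are discarded). -/
def contractEdge {V : Type} (G : SimpleGraph V) (u v : V) : SimpleGraph {x : V // x ≠ v} where
  Adj x y := x ≠ y ∧ (G.Adj x y ∨ (x.1 = u ∧ G.Adj v y) ∨ (y.1 = u ∧ G.Adj x v))
  symm := ⟨by
    rintro x y ⟨hne, h | ⟨h1, h2⟩ | ⟨h1, h2⟩⟩
    · exact ⟨hne.symm, Or.inl h.symm⟩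
    · exact ⟨hne.symm, Or.inr (Or.inr ⟨h1, h2.symm⟩)⟩
    · exact ⟨hne.symm, Or.inr (Or.inl ⟨h1, h2.symm⟩)⟩⟩
  loopless := ⟨fun x h => h.1 rfl⟩

/-- `H` is an induced minor of `G`: a graph isomorphic to `H` arises from `G` by a sequence of
vertex deletions and edge contractions. -/
inductive IsInducedMinor {W : Type} (H : SimpleGraph W) : {V : Type} → SimpleGraph V → Prop
  | iso {V : Type} {G : SimpleGraph V} (e : H ≃g G) : IsInducedMinor H G
  | delete {V : Type} {G : SimpleGraph V} (v : V)
      (h : IsInducedMinor H (G.induce {x | x ≠ v})) : IsInducedMinor H G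
  | contract {V : Type} {G : SimpleGraph V} (u v : V) (huv : G.Adj u v)
      (h : IsInducedMinor H (contractEdge G u v)) : IsInducedMinor H G

/-- `G` is a circle graph: the intersection graph of chords of a circle. -/
def IsCircleGraph {V : Type} (G : SimpleGraph V) : Prop :=
  ∃ a b : V → EuclideanSpace ℝ (Fin 2),
    (∀ v, a v ∈ sphere (0 : EuclideanSpace ℝ (Fin 2)) 1 ∧
      b v ∈ sphere (0 : EuclideanSpace ℝ (Fin 2)) 1 ∧ a v ≠ b v) ∧
    ∀ u v, u ≠ v → (G.Adj u v ↔ (segment ℝ (a u) (b u) ∩ segment ℝ (a v) (b v)).Nonempty)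

/-- `G` is a `d`-sphere graph: one can assign to each vertex a sphere of positive radius in
`ℝ^d` such that distinct vertices are adjacent exactly when their spheres intersect. -/
def IsSphereGraph {V : Type} (d : ℕ) (G : SimpleGraph V) : Prop :=
  ∃ (c : V → EuclideanSpace ℝ (Fin d)) (r : V → ℝ), (∀ v, 0 < r v) ∧
    ∀ u v, u ≠ v → (G.Adj u v ↔ (sphere (c u) (r u) ∩ sphere (c v) (r v)).Nonempty)

open Classical in
/-- The sphere dimension of `G`: `1` if `G` is a circle graph, and otherwise the least `d ≥ 2`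
such that `G` is a `d`-sphere graph. -/
noncomputable def sphereDim {V : Type} (G : SimpleGraph V) : ℕ :=
  if IsCircleGraph G then 1 else sInf {d : ℕ | 2 ≤ d ∧ IsSphereGraph d G}

/-- The class `Forb_ind(H)` of all finite graphs without induced minor `H` has bounded sphere
dimension. -/
def ForbIndBounded {W : Type} (H : SimpleGraph W) : Prop :=
  ∃ D : ℕ, ∀ (V : Type) [Finite V] (G : SimpleGraph V), ¬ IsInducedMinor H G → sphereDim G ≤ D

end Pool.Agent.Work.MP_97b8d2_co
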