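import Pool.Agent.Work.MP_97b8d2_co.Sphere

set_option autoImplicit false

namespace Pool.Agent.Work.MP_97b8d2_co

open Metric Finset

/-- Every finite graph is a `d`-sphere graph for some `d ≥ 2`. -/
theorem exists_isSphereGraph {V : Type} [Finite V] (G : SimpleGraph V) :
    ∃ d, 2 ≤ d ∧ IsSphereGraph d G := by
  classical
  have : Fintype V := Fintype.ofFinite V
  set n := Fintype.card V with hn
  obtain ⟨e⟩ : Nonempty (V ⊕ Fin 2 ≃ Fin (n + 2)) := ⟨Fintype.equivFinOfCardEq (by simp [hn])⟩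
  set ε : ℝ := 1 / (n + 2) with hε
  have hεpos : 0 < ε := by positivity
  have hεle : ε ≤ 1 / 2 := by
    rw [hε]
    apply one_div_le_one_div_of_le (by norm_num)
    have : (0 : ℝ) ≤ n := Nat.cast_nonneg n
    linarith
  have hεn : ε * (n + 2) = 1 := by
    rw [hε]
    field_simp
  let A : V → V → ℝ := fun u v => if G.Adj u v then 1 else 0
  let f : V → V ⊕ Fin 2 → ℝ := fun v => Sum.elim
    (fun w => (if v = w then 1 else 0) + ε * A v w) (fun _ => 0)
  let c : V → EuclideanSpace ℝ (Fin (n + 2)) := fun v => WithLp.toLp 2 fun i => f v (e.symm i)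
  have hdist : ∀ u v, ‖c u - c v‖ ^ 2 = ∑ w : V, (((if u = w then 1 else 0) + ε * A u w) -
      ((if v = w then 1 else 0) + ε * A v w)) ^ 2 := by
    intro u v
    rw [EuclideanSpace.norm_sq_eq]
    rw [← Equiv.sum_comp e]
    rw [Fintype.sum_sum_type]
    simp [c, f]
  have hAself : ∀ v, A v v = 0 := by
    intro v
    simp [A]
  have hA01 : ∀ u v, A u v = 0 ∨ A u v = 1 := by
    intro u v
    simp only [A]
    split_ifs <;> simp
  have hAsymm : ∀ u v, A u v = A v u := by
    intro u v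
    simp only [A, G.adj_comm]
  -- the two main terms
  have hsplit : ∀ u v, u ≠ v → ‖c u - c v‖ ^ 2 = 2 * (1 - ε * A u v) ^ 2 +
      ∑ w ∈ (Finset.univ.erase u).erase v, (ε * (A u w - A v w)) ^ 2 := by
    intro u v huv
    rw [hdist, ← Finset.add_sum_erase _ _ (Finset.mem_univ u),
      ← Finset.add_sum_erase _ _ (Finset.mem_erase.mpr ⟨huv.symm, Finset.mem_univ v⟩), ← add_assoc]
    congr 1
    · simp only [if_true, hAself, if_neg huv, if_neg huv.symm, hAsymm v u]
      ring
    · refine Finset.sum_congr rfl fun w hw => ?_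
      rw [Finset.mem_erase, Finset.mem_erase] at hw
      rw [if_neg (Ne.symm hw.2.1), if_neg (Ne.symm hw.1)]
      ring
  have hsq : 2 * ε ^ 2 + n * ε ^ 2 = ε := by
    have : (n : ℝ) * ε = 1 - 2 * ε := by linarith
    nlinarith
  have hr2 : 0 < 2 - 3 * ε := by linarith
  refine ⟨n + 2, by omega, c, fun _ => Real.sqrt (2 - 3 * ε) / 2,
    fun _ => by have := Real.sqrt_pos.mpr hr2; positivity, ?_⟩
  intro u v huv
  have hrpos : 0 < Real.sqrt (2 - 3 * ε) / 2 := by
    have := Real.sqrt_pos.mpr hr2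
    positivity
  rw [sphere_inter_iff (by omega) _ _ hrpos hrpos]
  have hsum : Real.sqrt (2 - 3 * ε) / 2 + Real.sqrt (2 - 3 * ε) / 2 = Real.sqrt (2 - 3 * ε) := by
    ring
  rw [hsum, sub_self, abs_zero]
  have hiff : ‖c u - c v‖ ≤ Real.sqrt (2 - 3 * ε) ↔ ‖c u - c v‖ ^ 2 ≤ 2 - 3 * ε :=
    Real.le_sqrt (norm_nonneg _) hr2.le
  rw [hiff, hsplit u v huv]
  constructor
  · intro hadj
    refine ⟨norm_nonneg _, ?_⟩
    have hA1 : A u v = 1 := by simp [A, hadj]
    have hbound : ∑ w ∈ (Finset.univ.erase u).erase v, (ε * (A u w - A v w)) ^ 2 ≤ n * ε ^ 2 := by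
      calc ∑ w ∈ (Finset.univ.erase u).erase v, (ε * (A u w - A v w)) ^ 2
          ≤ ∑ w ∈ (Finset.univ.erase u).erase v, ε ^ 2 := by
            refine Finset.sum_le_sum fun w _ => ?_
            rcases hA01 u w with h1 | h1 <;> rcases hA01 v w with h2 | h2 <;> rw [h1, h2] <;>
              nlinarith [sq_nonneg ε]
        _ = ((Finset.univ.erase u).erase v).card * ε ^ 2 := by rw [Finset.sum_const, nsmul_eq_mul]
        _ ≤ n * ε ^ 2 := by
            apply mul_le_mul_of_nonneg_right _ (sq_nonneg ε)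
            have h3 : ((Finset.univ.erase u).erase v).card ≤ n := by
              rw [hn, ← Finset.card_univ]
              exact Finset.card_le_card ((Finset.erase_subset _ _).trans (Finset.erase_subset _ _))
            exact_mod_cast h3
    rw [hA1]
    nlinarith
  · rintro ⟨-, h⟩
    by_contra hadj
    have hA0 : A u v = 0 := by simp [A, hadj]
    rw [hA0] at h
    have hnn : 0 ≤ ∑ w ∈ (Finset.univ.erase u).erase v, (ε * (A u w - A v w)) ^ 2 :=
      Finset.sum_nonneg fun w _ => sq_nonneg _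
    nlinarith

end Pool.Agent.Work.MP_97b8d2_co
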