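import Pool.Agent.Work.MP_97b8d2_co.Exists
import Pool.Agent.Work.MP_97b8d2_co.Circle

set_option autoImplicit false

namespace Pool.Agent.Work.MP_97b8d2_co

open Metric

/-! ### Closure under induced minors -/

/-- The vertex set is a union of two cliques. -/
def Cobip {V : Type} (G : SimpleGraph V) : Prop := ∃ A : Set V, G.IsClique A ∧ G.IsClique Aᶜ

/-- The vertex set is a union of a clique and an independent set. -/
def Split {V : Type} (G : SimpleGraph V) : Prop := ∃ A : Set V, G.IsClique A ∧ G.IsIndepSet Aᶜ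

theorem Cobip.of_iso {V W : Type} {G : SimpleGraph V} {H : SimpleGraph W} (e : H ≃g G)
    (h : Cobip G) : Cobip H := by
  obtain ⟨A, h1, h2⟩ := h
  refine ⟨e ⁻¹' A, ?_, ?_⟩
  · intro x hx y hy hxy
    exact e.map_adj_iff.mp (h1 hx hy (fun h => hxy (e.injective h)))
  · intro x hx y hy hxy
    exact e.map_adj_iff.mp (h2 hx hy (fun h => hxy (e.injective h)))

theorem Split.of_iso {V W : Type} {G : SimpleGraph V} {H : SimpleGraph W} (e : H ≃g G)
    (h : Split G) : Split H := by
  obtain ⟨A, h1, h2⟩ := h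
  refine ⟨e ⁻¹' A, ?_, ?_⟩
  · intro x hx y hy hxy
    exact e.map_adj_iff.mp (h1 hx hy (fun h => hxy (e.injective h)))
  · intro x hx y hy hxy hadj
    exact h2 hx hy (fun h => hxy (e.injective h)) (e.map_adj_iff.mpr hadj)

theorem Cobip.of_minor {V W : Type} {G : SimpleGraph V} {H : SimpleGraph W}
    (hm : IsInducedMinor H G) (h : Cobip G) : Cobip H := by
  induction hm with
  | iso e => exact h.of_iso e
  | delete v _ ih =>
    obtain ⟨A, h1, h2⟩ := h
    apply ih
    refine ⟨Subtype.val ⁻¹' A, ?_, ?_⟩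
    · intro x hx y hy hxy
      exact h1 hx hy (fun h => hxy (Subtype.ext h))
    · intro x hx y hy hxy
      exact h2 hx hy (fun h => hxy (Subtype.ext h))
  | contract u v huv _ ih =>
    obtain ⟨A, h1, h2⟩ := h
    apply ih
    refine ⟨Subtype.val ⁻¹' A, ?_, ?_⟩
    · intro x hx y hy hxy
      exact ⟨hxy, Or.inl (h1 hx hy (fun h => hxy (Subtype.ext h)))⟩
    · intro x hx y hy hxy
      exact ⟨hxy, Or.inl (h2 hx hy (fun h => hxy (Subtype.ext h)))⟩

theorem Split.of_minor {V W : Type} {G : SimpleGraph V} {H : SimpleGraph W}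
    (hm : IsInducedMinor H G) (h : Split G) : Split H := by
  induction hm with
  | iso e => exact h.of_iso e
  | delete v _ ih =>
    obtain ⟨A, h1, h2⟩ := h
    apply ih
    refine ⟨Subtype.val ⁻¹' A, ?_, ?_⟩
    · intro x hx y hy hxy
      exact h1 hx hy (fun h => hxy (Subtype.ext h))
    · intro x hx y hy hxy
      exact h2 hx hy (fun h => hxy (Subtype.ext h))
  | @contract V G u v huv _ ih =>
    obtain ⟨A, h1, h2⟩ := h
    apply ih
    have huA : u ∉ A → v ∈ A := by
      intro hu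
      by_contra hv
      exact h2 hu hv huv.ne huv
    refine ⟨{x | x.1 ∈ A ∨ x.1 = u}, ?_, ?_⟩
    · have key : ∀ x y : {x : V // x ≠ v}, x ≠ y → x.1 ∈ A → (y.1 ∈ A ∨ y.1 = u) →
          (contractEdge G u v).Adj x y := by
        intro x y hxy hx hy
        refine ⟨hxy, ?_⟩
        by_cases hyA : y.1 ∈ A
        · exact Or.inl (h1 hx hyA (fun h => hxy (Subtype.ext h)))
        · have hyu : y.1 = u := hy.resolve_left hyA
          exact Or.inr (Or.inr ⟨hyu, h1 hx (huA (hyu ▸ hyA)) x.2⟩)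
      intro x hx y hy hxy
      by_cases hxA : x.1 ∈ A
      · exact key x y hxy hxA hy
      · by_cases hyA : y.1 ∈ A
        · exact (key y x (Ne.symm hxy) hyA hx).symm
        · have hxu : x.1 = u := hx.resolve_left hxA
          have hyu : y.1 = u := hy.resolve_left hyA
          exact absurd (Subtype.ext (hxu.trans hyu.symm)) hxy
    · intro x hx y hy hxy hadj
      have hx1 : x.1 ∉ A := fun h => hx (Or.inl h)
      have hx2 : x.1 ≠ u := fun h => hx (Or.inr h)
      have hy1 : y.1 ∉ A := fun h => hy (Or.inl h)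
      have hy2 : y.1 ≠ u := fun h => hy (Or.inr h)
      rcases hadj.2 with h | ⟨h, -⟩ | ⟨h, -⟩
      · exact h2 hx1 hy1 (fun h => hxy (Subtype.ext h)) h
      · exact hx2 h
      · exact hy2 h

/-! ### The graphs -/

/-- The graph on `[N] ∪ 2^[N]` in which `i` and `S` are adjacent when `i ∈ S`, `[N]` is a clique
and `2^[N]` is a clique (if `b` holds) or an independent set (if `b` fails). -/
def bigGraph (N : ℕ) (b : Prop) : SimpleGraph (Fin N ⊕ Finset (Fin N)) where
  Adj x y := match x, y with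
    | Sum.inl i, Sum.inl j => i ≠ j
    | Sum.inr S, Sum.inr T => b ∧ S ≠ T
    | Sum.inl i, Sum.inr S => i ∈ S
    | Sum.inr S, Sum.inl i => i ∈ S
  symm := ⟨by
    rintro (i | S) (j | T) h
    · exact Ne.symm h
    · exact h
    · exact h
    · exact ⟨h.1, Ne.symm h.2⟩⟩
  loopless := ⟨by
    rintro (i | S) h
    · exact h rfl
    · exact h.2 rfl⟩

theorem bigGraph_cobip (N : ℕ) : Cobip (bigGraph N True) := by
  refine ⟨Set.range Sum.inl, ?_, ?_⟩
  · rintro _ ⟨i, rfl⟩ _ ⟨j, rfl⟩ hij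
    exact fun h => hij (by rw [h])
  · rintro (i | S) hx (j | T) hy hxy
    · exact absurd ⟨i, rfl⟩ hx
    · exact absurd ⟨i, rfl⟩ hx
    · exact absurd ⟨j, rfl⟩ hy
    · exact ⟨trivial, fun h => hxy (by rw [h])⟩

theorem bigGraph_split (N : ℕ) : Split (bigGraph N False) := by
  refine ⟨Set.range Sum.inl, ?_, ?_⟩
  · rintro _ ⟨i, rfl⟩ _ ⟨j, rfl⟩ hij
    exact fun h => hij (by rw [h])
  · rintro (i | S) hx (j | T) hy hxy
    · exact absurd ⟨i, rfl⟩ hx
    · exact absurd ⟨i, rfl⟩ hx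
    · exact absurd ⟨j, rfl⟩ hy
    · exact fun h => h.1

theorem not_sphere (N d : ℕ) (b : Prop) (hd : 2 ≤ d) (hN : bnd N (d + 3) ^ 2 < 2 ^ N) :
    ¬ IsSphereGraph d (bigGraph N b) := by
  rintro ⟨c, r, hr, hadj⟩
  have hcard : Fintype.card (Fin d ⊕ Fin 3) = d + 3 := by simp
  have := pattern_bound (D := Fin d ⊕ Fin 3) 2
    (fun _ i => Sum.elim (fun k => c (Sum.inl i) k)
      ![‖c (Sum.inl i)‖ ^ 2 - r (Sum.inl i) ^ 2, r (Sum.inl i), 1])
    (fun j S => if j = 0 then
        Sum.elim (fun k => -2 * c (Sum.inr S) k)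
          ![1, -2 * r (Sum.inr S), ‖c (Sum.inr S)‖ ^ 2 - r (Sum.inr S) ^ 2]
      else
        Sum.elim (fun k => 2 * c (Sum.inr S) k)
          ![-1, -2 * r (Sum.inr S), -(‖c (Sum.inr S)‖ ^ 2 - r (Sum.inr S) ^ 2)])
    (fun P => ¬ P 0 ∧ ¬ P 1) (by
      intro S i
      have h1 : i ∈ S ↔ (bigGraph N b).Adj (Sum.inl i) (Sum.inr S) := Iff.rfl
      rw [h1, hadj _ _ (by simp), sphere_inter_iff hd _ _ (hr _) (hr _)]
      set cu := c (Sum.inl i)
      set cv := c (Sum.inr S)
      set ru := r (Sum.inl i)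
      set rv := r (Sum.inr S)
      have hru : 0 < ru := hr _
      have hrv : 0 < rv := hr _
      have hnn : 0 ≤ ‖cu - cv‖ := norm_nonneg _
      have hns : ‖cu - cv‖ ^ 2 = ‖cu‖ ^ 2 - 2 * ∑ k, cu k * cv k + ‖cv‖ ^ 2 := by
        rw [norm_sub_sq_real]
        congr 2
        rw [PiLp.inner_apply]
        congr 1
        refine Finset.sum_congr rfl fun k _ => ?_
        simp [mul_comm]
      have e1 : ∑ k, cu k * (-2 * cv k) = -2 * ∑ k, cu k * cv k := by
        rw [Finset.mul_sum]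
        exact Finset.sum_congr rfl fun k _ => by ring
      have e2 : ∑ k, cu k * (2 * cv k) = 2 * ∑ k, cu k * cv k := by
        rw [Finset.mul_sum]
        exact Finset.sum_congr rfl fun k _ => by ring
      simp only [Fintype.sum_sum_type, Sum.elim_inl, Sum.elim_inr, if_true, Fin.sum_univ_three,
        one_ne_zero, if_false, Matrix.cons_val_zero, Matrix.cons_val_one, Matrix.cons_val_two,
        Matrix.head_cons, Matrix.tail_cons, Matrix.cons_val, e1, e2]
      rw [and_comm, not_lt, not_lt]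
      constructor
      · rintro ⟨h1, h2⟩
        have h3 := abs_le.mp h2
        constructor
        · nlinarith
        · nlinarith
      · rintro ⟨h1, h2⟩
        constructor
        · have h3 : ‖cu - cv‖ ^ 2 ≤ (ru + rv) ^ 2 := by nlinarith
          exact le_of_sq_le_sq h3 (by positivity)
        · have h3 : |ru - rv| ^ 2 ≤ ‖cu - cv‖ ^ 2 := by
            rw [sq_abs]
            nlinarith
          exact le_of_sq_le_sq h3 hnn)
  rw [hcard] at this
  omega

theorem not_circle (N : ℕ) (b : Prop) (hN : bnd N 3 ^ 4 < 2 ^ N) :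
    ¬ IsCircleGraph (bigGraph N b) := by
  rintro ⟨a, a', ha, hadj⟩
  have := pattern_bound (D := Fin 3) 4
    (fun _ i => ![-(a' (Sum.inl i) 1 - a (Sum.inl i) 1), a' (Sum.inl i) 0 - a (Sum.inl i) 0,
      -(a' (Sum.inl i) 0 - a (Sum.inl i) 0) * a (Sum.inl i) 1 +
        (a' (Sum.inl i) 1 - a (Sum.inl i) 1) * a (Sum.inl i) 0])
    (fun j S => ![![a (Sum.inr S) 0, a (Sum.inr S) 1, 1],
      ![a' (Sum.inr S) 0, a' (Sum.inr S) 1, 1],
      ![-a (Sum.inr S) 0, -a (Sum.inr S) 1, -1],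
      ![-a' (Sum.inr S) 0, -a' (Sum.inr S) 1, -1]] j)
    (fun P => ¬ (P 0 ∧ P 1) ∧ ¬ (P 2 ∧ P 3)) (by
      intro S i
      have h1 : i ∈ S ↔ (bigGraph N b).Adj (Sum.inl i) (Sum.inr S) := Iff.rfl
      obtain ⟨q1, q2, q3⟩ := ha (Sum.inl i)
      obtain ⟨q4, q5, q6⟩ := ha (Sum.inr S)
      rw [h1, hadj _ _ (by simp), chord_inter_iff q1 q2 q3 q4 q5]
      have e : ∀ x : EuclideanSpace ℝ (Fin 2), side (a (Sum.inl i)) (a' (Sum.inl i)) x =
          -(a' (Sum.inl i) 1 - a (Sum.inl i) 1) * x 0 + (a' (Sum.inl i) 0 - a (Sum.inl i) 0) * x 1 +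
          (-(a' (Sum.inl i) 0 - a (Sum.inl i) 0) * a (Sum.inl i) 1 +
            (a' (Sum.inl i) 1 - a (Sum.inl i) 1) * a (Sum.inl i) 0) * 1 := by
        intro x
        simp only [side]
        ring
      have e' : ∀ x : EuclideanSpace ℝ (Fin 2), side (a (Sum.inl i)) (a' (Sum.inl i)) x < 0 ↔
          0 < -(a' (Sum.inl i) 1 - a (Sum.inl i) 1) * -x 0 +
            (a' (Sum.inl i) 0 - a (Sum.inl i) 0) * -x 1 +
          (-(a' (Sum.inl i) 0 - a (Sum.inl i) 0) * a (Sum.inl i) 1 +
            (a' (Sum.inl i) 1 - a (Sum.inl i) 1) * a (Sum.inl i) 0) * -1 := by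
        intro x
        rw [e]
        constructor <;> intro h <;> linarith
      rw [e', e', e, e]
      simp [Fin.sum_univ_three])
  rw [Fintype.card_fin] at this
  omega

theorem sphereDim_gt {V : Type} [Finite V] (G : SimpleGraph V) (D : ℕ)
    (hc : ¬ IsCircleGraph G) (hs : ∀ d, 2 ≤ d → d ≤ D → ¬ IsSphereGraph d G) :
    D < sphereDim G := by
  unfold sphereDim
  rw [if_neg hc]
  have hne : {d : ℕ | 2 ≤ d ∧ IsSphereGraph d G}.Nonempty := exists_isSphereGraph G
  have hmem := Nat.sInf_mem hne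
  by_contra hle
  exact hs _ hmem.1 (not_lt.mp hle) hmem.2

theorem large (D : ℕ) (b : Prop) : ∃ N, D < sphereDim (bigGraph N b) := by
  have h1 := exists_large 3 4
  have h2 : ∀ᶠ N : ℕ in Filter.atTop, ∀ d ∈ Finset.range (D + 1), bnd N (d + 3) ^ 2 < 2 ^ N := by
    rw [Filter.eventually_all_finset]
    exact fun d _ => exists_large (d + 3) 2
  obtain ⟨N, hN1, hN2⟩ := (h1.and h2).exists
  refine ⟨N, sphereDim_gt _ D (not_circle N b hN1) ?_⟩
  intro d hd hdD
  exact not_sphere N d b hd (hN2 d (Finset.mem_range.mpr (by omega)))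

theorem bounded_imp {W : Type} (H : SimpleGraph W) (h : ForbIndBounded H) :
    Cobip H ∧ Split H := by
  obtain ⟨D, hD⟩ := h
  constructor
  · by_contra hH
    obtain ⟨N, hN⟩ := large D True
    have := hD _ (bigGraph N True) (fun hm => hH (Cobip.of_minor hm (bigGraph_cobip N)))
    omega
  · by_contra hH
    obtain ⟨N, hN⟩ := large D False
    have := hD _ (bigGraph N False) (fun hm => hH (Split.of_minor hm (bigGraph_split N)))
    omega

end Pool.Agent.Work.MP_97b8d2_co
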