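import Pool.Agent.Work.MP_97b8d2_co.VC
import Pool.Agent.Work.MP_97b8d2_co.Defs

set_option autoImplicit false

namespace Pool.Agent.Work.MP_97b8d2_co

open Metric

/-- Two spheres in a real inner product space of dimension at least two intersect if and only if
the obvious inequalities hold. -/
theorem sphere_inter_iff {d : ℕ} (hd : 2 ≤ d) (c c' : EuclideanSpace ℝ (Fin d)) {r r' : ℝ}
    (hr : 0 < r) (hr' : 0 < r') :
    (sphere c r ∩ sphere c' r').Nonempty ↔ |r - r'| ≤ ‖c - c'‖ ∧ ‖c - c'‖ ≤ r + r' := by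
  constructor
  · rintro ⟨x, hx, hx'⟩
    rw [mem_sphere, dist_eq_norm] at hx hx'
    have h1 : c - c' = (x - c') - (x - c) := by abel
    constructor
    · rw [h1]
      have := abs_norm_sub_norm_le (x - c') (x - c)
      rw [hx, hx', abs_sub_comm] at this
      exact this
    · rw [h1]
      have := norm_sub_le (x - c') (x - c)
      rw [hx, hx'] at this
      linarith
  · rintro ⟨h1, h2⟩
    by_cases hcc : c = c'
    · subst hcc
      rw [sub_self, norm_zero] at h1
      have h3 : r = r' := by
        have := abs_nonpos_iff.mp h1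
        linarith
      subst h3
      have : Nontrivial (EuclideanSpace ℝ (Fin d)) := by
        have : Nonempty (Fin d) := ⟨⟨0, by omega⟩⟩
        infer_instance
      rw [Set.inter_self]
      exact NormedSpace.sphere_nonempty.mpr hr.le
    · -- a unit vector orthogonal to `u = c' - c`
      set u := c' - c with hu
      have hu0 : u ≠ 0 := sub_ne_zero.mpr (Ne.symm hcc)
      have hnorm : ‖c - c'‖ = ‖u‖ := by rw [hu, norm_sub_rev]
      rw [hnorm] at h1 h2
      have hupos : 0 < ‖u‖ := norm_pos_iff.mpr hu0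
      obtain ⟨n, hn1, hn2⟩ : ∃ n : EuclideanSpace ℝ (Fin d), ‖n‖ = 1 ∧ inner ℝ u n = 0 := by
        have hfin : Module.finrank ℝ (EuclideanSpace ℝ (Fin d)) = d := finrank_euclideanSpace_fin
        have hspan : Module.finrank ℝ (Submodule.span ℝ {u}) = 1 := finrank_span_singleton hu0
        have hadd := Submodule.finrank_add_finrank_orthogonal (Submodule.span ℝ {u})
        rw [hfin, hspan] at hadd
        have hpos : 0 < Module.finrank ℝ (Submodule.span ℝ {u})ᗮ := by omega
        have hnt : Nontrivial (Submodule.span ℝ {u})ᗮ := Module.finrank_pos_iff.mp hpos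
        obtain ⟨⟨m, hm⟩, hm0⟩ := exists_ne (0 : (Submodule.span ℝ {u})ᗮ)
        have hm0' : m ≠ 0 := fun h => hm0 (Subtype.ext h)
        refine ⟨(‖m‖⁻¹ : ℝ) • m, ?_, ?_⟩
        · rw [norm_smul, norm_inv, norm_norm, inv_mul_cancel₀ (norm_ne_zero_iff.mpr hm0')]
        · rw [inner_smul_right]
          have : inner ℝ u m = 0 :=
            (Submodule.mem_orthogonal _ _).mp hm u (Submodule.mem_span_singleton_self u)
          rw [this, mul_zero]
      set t := (r ^ 2 - r' ^ 2 + ‖u‖ ^ 2) / (2 * ‖u‖ ^ 2) with ht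
      have habs := abs_le.mp h1
      have hth : 0 ≤ r ^ 2 - t ^ 2 * ‖u‖ ^ 2 := by
        have e1 : t * ‖u‖ = (r ^ 2 - r' ^ 2 + ‖u‖ ^ 2) / (2 * ‖u‖) := by
          rw [ht]; field_simp
        have e2 : |t * ‖u‖| ≤ r := by
          rw [e1, abs_le]
          constructor
          · rw [le_div_iff₀ (by positivity)]
            nlinarith
          · rw [div_le_iff₀ (by positivity)]
            nlinarith
        have e3 := sq_le_sq' (abs_le.mp e2).1 (abs_le.mp e2).2
        nlinarith
      refine ⟨c + (t • u + Real.sqrt (r ^ 2 - t ^ 2 * ‖u‖ ^ 2) • n), ?_, ?_⟩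
      · rw [mem_sphere, dist_eq_norm, add_sub_cancel_left, ← sq_eq_sq₀ (norm_nonneg _) hr.le,
          norm_add_sq_real, norm_smul, norm_smul, inner_smul_left, inner_smul_right, hn1, hn2,
          mul_pow, Real.norm_eq_abs, Real.norm_eq_abs, sq_abs, mul_one, sq_abs, Real.sq_sqrt hth]
        simp
      · have e4 : c + (t • u + Real.sqrt (r ^ 2 - t ^ 2 * ‖u‖ ^ 2) • n) - c' =
            (t - 1) • u + Real.sqrt (r ^ 2 - t ^ 2 * ‖u‖ ^ 2) • n := by
          rw [sub_smul, one_smul, hu]
          abel
        rw [mem_sphere, dist_eq_norm, e4, ← sq_eq_sq₀ (norm_nonneg _) hr'.le,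
          norm_add_sq_real, norm_smul, norm_smul, inner_smul_left, inner_smul_right, hn1, hn2,
          mul_pow, Real.norm_eq_abs, Real.norm_eq_abs, sq_abs, mul_one, sq_abs, Real.sq_sqrt hth]
        simp only [mul_zero, add_zero]
        have e5 : t * (2 * ‖u‖ ^ 2) = r ^ 2 - r' ^ 2 + ‖u‖ ^ 2 := by
          rw [ht]; field_simp
        nlinarith

end Pool.Agent.Work.MP_97b8d2_co
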