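import Mathlib

set_option autoImplicit false

namespace Pool.Agent.Work.MP_97b8d2_co

open Finset

variable {N : ℕ} {D : Type} [Fintype D]

/-- The set of indices on which a vector is positive. -/
noncomputable def pos (w : Fin N → D → ℝ) (x : D → ℝ) : Finset (Fin N) :=
  by classical exact Finset.univ.filter fun i => 0 < ∑ k, w i k * x k

lemma mem_pos (w : Fin N → D → ℝ) (x : D → ℝ) (i : Fin N) :
    i ∈ pos w x ↔ 0 < ∑ k, w i k * x k := by
  simp [pos]

/-- The family of all such sets. -/
noncomputable def fam (w : Fin N → D → ℝ) : Finset (Finset (Fin N)) :=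
  by classical exact Finset.univ.filter fun S => ∃ x, S = pos w x

lemma mem_fam (w : Fin N → D → ℝ) (S : Finset (Fin N)) : S ∈ fam w ↔ ∃ x, S = pos w x := by
  simp [fam]

lemma card_le_of_shatters (w : Fin N → D → ℝ) (S : Finset (Fin N)) (h : (fam w).Shatters S) :
    S.card ≤ Fintype.card D := by
  by_contra hlt
  push Not at hlt
  have hnl : ¬ LinearIndependent ℝ (fun i : S => w i) := by
    intro hli
    have := hli.fintype_card_le_finrank
    rw [Module.finrank_fintype_fun_eq_card, Fintype.card_coe] at this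
    omega
  obtain ⟨g, hg, i₀, hi₀⟩ := Fintype.not_linearIndependent_iff.mp hnl
  -- we may assume that some coefficient is positive
  obtain ⟨g, hg, i₀, hi₀⟩ : ∃ g : S → ℝ, (∑ i, g i • w i = 0) ∧ ∃ i, 0 < g i := by
    rcases lt_or_gt_of_ne hi₀ with h0 | h0
    · refine ⟨-g, ?_, i₀, by simpa using h0⟩
      simp only [Pi.neg_apply, neg_smul, Finset.sum_neg_distrib, hg, neg_zero]
    · exact ⟨g, hg, i₀, h0⟩
  classical
  let T : Finset (Fin N) := S.filter fun i => ∃ h : i ∈ S, 0 < g ⟨i, h⟩
  obtain ⟨u, hu, hSu⟩ := h (Finset.filter_subset _ S : T ⊆ S)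
  obtain ⟨x, rfl⟩ := (mem_fam w u).mp hu
  have hiff : ∀ i : S, 0 < g i ↔ 0 < ∑ k, w i k * x k := by
    intro i
    have h1 : (i : Fin N) ∈ S ∩ pos w x ↔ (i : Fin N) ∈ T := by rw [hSu]
    simp only [Finset.mem_inter, mem_pos, T, Finset.mem_filter, i.2, true_and, exists_true_left,
      Subtype.coe_eta] at h1
    exact h1.symm
  have hsum : ∑ i : S, g i * ∑ k, w i k * x k = 0 := by
    have h1 : ∀ k, ∑ i : S, g i * w i k = 0 := by
      intro k
      have := congrFun hg k
      simpa [Finset.sum_apply] using this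
    calc ∑ i : S, g i * ∑ k, w i k * x k = ∑ i : S, ∑ k, g i * w i k * x k := by
          refine Finset.sum_congr rfl fun i _ => ?_
          rw [Finset.mul_sum]
          exact Finset.sum_congr rfl fun k _ => by ring
      _ = ∑ k, (∑ i : S, g i * w i k) * x k := by
          rw [Finset.sum_comm]
          exact Finset.sum_congr rfl fun k _ => by rw [Finset.sum_mul]
      _ = 0 := Finset.sum_eq_zero fun k _ => by rw [h1 k, zero_mul]
  have hpos : 0 < ∑ i : S, g i * ∑ k, w i k * x k := by
    refine Finset.sum_pos' (fun i _ => ?_) ⟨i₀, Finset.mem_univ _, ?_⟩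
    · by_cases hgi : 0 < g i
      · exact (mul_pos hgi ((hiff i).mp hgi)).le
      · have h2 : ¬ 0 < ∑ k, w i k * x k := fun h => hgi ((hiff i).mpr h)
        exact mul_nonneg_of_nonpos_of_nonpos (not_lt.mp hgi) (not_lt.mp h2)
    · exact mul_pos hi₀ ((hiff i₀).mp hi₀)
  linarith

/-- The bound on the number of sign sets. -/
def bnd (N D : ℕ) : ℕ := (D + 1) * (N + 1) ^ D

lemma card_fam_le (w : Fin N → D → ℝ) : (fam w).card ≤ bnd N (Fintype.card D) := by
  classical
  have h1 : (fam w).vcDim ≤ Fintype.card D := by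
    unfold Finset.vcDim
    refine Finset.sup_le fun S hS => ?_
    exact card_le_of_shatters w S (Finset.mem_shatterer.mp hS)
  calc (fam w).card ≤ (fam w).shatterer.card := Finset.card_le_card_shatterer _
    _ ≤ ∑ k ∈ Finset.Iic (fam w).vcDim, (Fintype.card (Fin N)).choose k :=
        Finset.card_shatterer_le_sum_vcDim
    _ ≤ ∑ k ∈ Finset.Iic (Fintype.card D), (Fintype.card (Fin N)).choose k :=
        Finset.sum_le_sum_of_subset (Finset.Iic_subset_Iic.mpr h1)
    _ ≤ ∑ k ∈ Finset.Iic (Fintype.card D), (N + 1) ^ Fintype.card D := by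
        refine Finset.sum_le_sum fun k hk => ?_
        rw [Fintype.card_fin]
        refine (Nat.choose_le_pow N k).trans ?_
        refine (Nat.pow_le_pow_left (Nat.le_succ N) k).trans ?_
        exact Nat.pow_le_pow_right (Nat.succ_pos N) (Finset.mem_Iic.mp hk)
    _ = bnd N (Fintype.card D) := by
        rw [Finset.sum_const, smul_eq_mul, bnd, Nat.card_Iic]

/-- If membership of `i` in `S` is decided by the signs of `t` scalar products of vectors of
`ℝ^D` attached to `i` and to `S`, then `2 ^ N ≤ bnd N D ^ t`. -/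
theorem pattern_bound (t : ℕ) (w : Fin t → Fin N → D → ℝ) (x : Fin t → Finset (Fin N) → D → ℝ)
    (Φ : (Fin t → Prop) → Prop)
    (h : ∀ S : Finset (Fin N), ∀ i, i ∈ S ↔ Φ fun j => 0 < ∑ k, w j i k * x j S k) :
    2 ^ N ≤ bnd N (Fintype.card D) ^ t := by
  classical
  let f : Finset (Fin N) → (∀ j : Fin t, fam (w j)) := fun S j =>
    ⟨pos (w j) (x j S), (mem_fam _ _).mpr ⟨x j S, rfl⟩⟩
  have hf : Function.Injective f := by
    intro S S' hSS
    ext i
    rw [h S i, h S' i]
    have : (fun j => 0 < ∑ k, w j i k * x j S k) = fun j => 0 < ∑ k, w j i k * x j S' k := by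
      funext j
      have h1 : pos (w j) (x j S) = pos (w j) (x j S') :=
        congrArg Subtype.val (congrFun hSS j)
      have h2 : i ∈ pos (w j) (x j S) ↔ i ∈ pos (w j) (x j S') := by rw [h1]
      rw [mem_pos, mem_pos] at h2
      exact propext h2
    rw [this]
  have hcard := Fintype.card_le_of_injective f hf
  rw [Fintype.card_finset, Fintype.card_fin, Fintype.card_pi] at hcard
  refine hcard.trans ?_
  calc ∏ j : Fin t, Fintype.card (fam (w j)) ≤ ∏ j : Fin t, bnd N (Fintype.card D) := by
        refine Finset.prod_le_prod' fun j _ => ?_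
        rw [Fintype.card_coe]
        exact card_fam_le (w j)
    _ = bnd N (Fintype.card D) ^ t := by simp

/-- Exponential growth beats the bound. -/
theorem exists_large (D t : ℕ) : ∀ᶠ N : ℕ in Filter.atTop, bnd N D ^ t < 2 ^ N := by
  have h := tendsto_pow_const_div_const_pow_of_one_lt (D * t) (r := (2 : ℝ)) (by norm_num)
  have h1 := h.comp (Filter.tendsto_add_atTop_nat 1)
  have hpos : (0 : ℝ) < 1 / (2 * ((D : ℝ) + 1) ^ t) := by positivity
  have h2 := h1.eventually_lt_const hpos
  filter_upwards [h2] with N hN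
  simp only [Function.comp_apply] at hN
  rw [div_lt_div_iff₀ (by positivity) (by positivity)] at hN
  have h3 : ((N + 1 : ℕ) : ℝ) ^ (D * t) * ((D : ℝ) + 1) ^ t < 2 ^ N := by
    have : (2 : ℝ) ^ (N + 1) = 2 * 2 ^ N := by ring
    rw [this] at hN
    nlinarith
  have h4 : (((bnd N D) ^ t : ℕ) : ℝ) < ((2 ^ N : ℕ) : ℝ) := by
    rw [bnd]
    push_cast at h3 ⊢
    calc (((D : ℝ) + 1) * ((N : ℝ) + 1) ^ D) ^ t = ((N : ℝ) + 1) ^ (D * t) * ((D : ℝ) + 1) ^ t := by
          rw [mul_pow, ← pow_mul]; ring
      _ < 2 ^ N := h3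
  exact_mod_cast h4

end Pool.Agent.Work.MP_97b8d2_co
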